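import Pool.Agent.Helper31.Del.Goals

/-! MP_c45da2_co, packet C1: the walking lemma -/

namespace Pool.Agent.Helper36.Del

open Module Pool.Agent.Helper31.Del Pool.Agent.Helper65.Delone

section

variable {V : Type*} [NormedAddCommGroup V] [InnerProductSpace ℝ V]

lemma sub_mem_aux {Y : Set V} {ρ τ : ℝ} {k : ℕ} {t : Fin k → V} (hτ : 0 ≤ τ)
    (hk : (3 * k + 3) * τ ≤ ρ) (ht : ∀ i, Tr Y ρ τ (t i)) (P : V) (hP : P ∈ Y)
    (hPn : ‖P‖ ≤ (2 * k + 1) * τ) (ε : Fin k → ℤ) (hε : ∀ i, ε i = -1 ∨ ε i = 0 ∨ ε i = 1)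
    (S : Finset (Fin k)) :
    P - ∑ i ∈ S, ε i • t i ∈ Y ∧ ‖P - ∑ i ∈ S, ε i • t i‖ ≤ (2 * k + 1) * τ + S.card * τ := by
  classical
  induction S using Finset.induction_on with
  | empty => simpa using ⟨hP, hPn⟩
  | insert a S ha ih =>
    obtain ⟨h1, h2⟩ := ih
    set Q := P - ∑ i ∈ S, ε i • t i with hQ
    have hcard : (S.card : ℝ) ≤ k := by
      exact_mod_cast (Finset.card_le_univ S).trans (by simp)
    have hQρ : ‖Q‖ ≤ ρ := by nlinarith
    have e : P - ∑ i ∈ insert a S, ε i • t i = Q - ε a • t a := by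
      rw [Finset.sum_insert ha, hQ]; abel
    rw [e, Finset.card_insert_of_notMem ha]
    obtain ⟨ht1, ht2⟩ := ht a
    obtain ⟨h3, h4⟩ := ht2 Q h1 hQρ
    have hn : ‖ε a • t a‖ ≤ τ := by
      rcases hε a with h | h | h <;> rw [h] <;> simp <;> linarith
    constructor
    · rcases hε a with h | h | h
      · rw [h]; simpa using h3
      · rw [h]; simpa using h1
      · rw [h]; simpa using h4
    · calc ‖Q - ε a • t a‖ ≤ ‖Q‖ + ‖ε a • t a‖ := norm_sub_le _ _
        _ ≤ _ := by push_cast; nlinarith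

lemma floor_diff (x d : ℝ) (hd : |d| ≤ 1) :
    ⌊x + d⌋ - ⌊x⌋ = -1 ∨ ⌊x + d⌋ - ⌊x⌋ = 0 ∨ ⌊x + d⌋ - ⌊x⌋ = 1 := by
  rw [abs_le] at hd
  have h1 : ⌊x + d⌋ ≤ ⌊x + 1⌋ := Int.floor_mono (by linarith)
  have h2 : ⌊x - 1⌋ ≤ ⌊x + d⌋ := Int.floor_mono (by linarith)
  rw [Int.floor_add_one] at h1
  rw [Int.floor_sub_one] at h2
  omega

lemma norm_fract_sum {τ : ℝ} {k : ℕ} {t : Fin k → V} (ht : ∀ i, ‖t i‖ ≤ τ) (x : Fin k → ℝ) :
    ‖∑ i, Int.fract (x i) • t i‖ ≤ k * τ := by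
  calc ‖∑ i, Int.fract (x i) • t i‖ ≤ ∑ i, ‖Int.fract (x i) • t i‖ := norm_sum_le _ _
    _ ≤ ∑ _i : Fin k, τ := by
        refine Finset.sum_le_sum (fun i _ => ?_)
        rw [norm_smul, Real.norm_of_nonneg (Int.fract_nonneg _)]
        have h1 := (Int.fract_lt_one (x i)).le
        have h2 := Int.fract_nonneg (x i)
        have h3 := norm_nonneg (t i)
        have h4 := ht i
        nlinarith
    _ = k * τ := by simp

lemma walk_G {Y : Set V} {ρ τ : ℝ} {k : ℕ} {t : Fin k → V} (hτ : 0 ≤ τ)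
    (hk : (3 * k + 3) * τ ≤ ρ) (ht : ∀ i, Tr Y ρ τ (t i)) (A : V) (hA : A ∈ Y)
    (hAn : ‖A‖ ≤ (k + 1) * τ) (n : Fin k → ℤ) (hB : ‖A - ∑ i, n i • t i‖ ≤ (k + 1) * τ) :
    A - ∑ i, n i • t i ∈ Y := by
  obtain ⟨J, hJ0, hJ⟩ : ∃ J : ℕ, 0 < J ∧ ∀ i, |(n i : ℝ)| ≤ J := by
    refine ⟨(∑ i, (n i).natAbs) + 1, by omega, fun i => ?_⟩
    have h1 : (n i).natAbs ≤ ∑ i, (n i).natAbs :=
      Finset.single_le_sum (f := fun i => (n i).natAbs) (fun _ _ => Nat.zero_le _)
        (Finset.mem_univ i)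
    have h2 : |(n i : ℝ)| = ((n i).natAbs : ℝ) := by rw [Nat.cast_natAbs]; push_cast; rfl
    rw [h2]
    have h3 : (n i).natAbs ≤ (∑ i, (n i).natAbs) + 1 := by omega
    exact_mod_cast h3
  have hJr : (0 : ℝ) < J := by exact_mod_cast hJ0
  set P : ℕ → V := fun s => A - ∑ i, ⌊((s : ℝ) * n i) / J⌋ • t i with hP
  have hnorm : ∀ s ≤ J, ‖P s‖ ≤ (2 * k + 1) * τ := by
    intro s hs
    have hs1 : (s : ℝ) / J ≤ 1 := by rw [div_le_one hJr]; exact_mod_cast hs
    have hs0 : 0 ≤ (s : ℝ) / J := by positivity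
    have e : P s = ((1 - (s : ℝ) / J) • A + ((s : ℝ) / J) • (A - ∑ i, n i • t i)) +
        ∑ i, Int.fract (((s : ℝ) * n i) / J) • t i := by
      have e1 : ∑ i, Int.fract (((s : ℝ) * n i) / J) • t i =
          ((s : ℝ) / J) • (∑ i, n i • t i) - ∑ i, ⌊((s : ℝ) * n i) / J⌋ • t i := by
        rw [Finset.smul_sum, ← Finset.sum_sub_distrib]
        refine Finset.sum_congr rfl (fun i _ => ?_)
        rw [Int.fract, sub_smul, Int.cast_smul_eq_zsmul, ← Int.cast_smul_eq_zsmul ℝ (n i),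
          smul_smul]
        congr 2
        ring
      rw [e1, smul_sub, sub_smul, one_smul]
      simp only [hP]
      abel
    rw [e]
    have h1 : ‖(1 - (s : ℝ) / J) • A‖ ≤ (1 - (s : ℝ) / J) * ((k + 1) * τ) := by
      rw [norm_smul, Real.norm_of_nonneg (by linarith)]
      exact mul_le_mul_of_nonneg_left hAn (by linarith)
    have h2 : ‖((s : ℝ) / J) • (A - ∑ i, n i • t i)‖ ≤ ((s : ℝ) / J) * ((k + 1) * τ) := by
      rw [norm_smul, Real.norm_of_nonneg hs0]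
      exact mul_le_mul_of_nonneg_left hB hs0
    have h3 := norm_fract_sum (fun i => (ht i).1) (fun i => ((s : ℝ) * n i) / J)
    calc _ ≤ ‖(1 - (s : ℝ) / J) • A + ((s : ℝ) / J) • (A - ∑ i, n i • t i)‖ +
          ‖∑ i, Int.fract (((s : ℝ) * n i) / J) • t i‖ := norm_add_le _ _
      _ ≤ (‖(1 - (s : ℝ) / J) • A‖ + ‖((s : ℝ) / J) • (A - ∑ i, n i • t i)‖) +
          ‖∑ i, Int.fract (((s : ℝ) * n i) / J) • t i‖ := by gcongr; exact norm_add_le _ _
      _ ≤ ((1 - (s : ℝ) / J) * ((k + 1) * τ) + ((s : ℝ) / J) * ((k + 1) * τ)) + k * τ := by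
          gcongr
      _ = (2 * k + 1) * τ := by ring
  have hmem : ∀ s ≤ J, P s ∈ Y := by
    intro s
    induction s with
    | zero =>
      intro _
      simpa [hP] using hA
    | succ s ih =>
      intro hs
      have h1 := ih (by omega)
      have h2 := hnorm s (by omega)
      have e : P (s + 1) = P s - ∑ i, (⌊((s : ℝ) * n i) / J + (n i : ℝ) / J⌋ -
          ⌊((s : ℝ) * n i) / J⌋) • t i := by
        simp only [hP]
        rw [sub_sub, ← Finset.sum_add_distrib]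
        congr 1
        refine Finset.sum_congr rfl (fun i _ => ?_)
        rw [← add_smul]
        congr 1
        have : (((s + 1 : ℕ) : ℝ) * n i) / J = ((s : ℝ) * n i) / J + (n i : ℝ) / J := by
          push_cast; ring
        rw [this]
        ring
      rw [e]
      refine (sub_mem_aux hτ hk ht (P s) h1 h2 _ (fun i => ?_) Finset.univ).1
      apply floor_diff
      rw [abs_div, abs_of_pos hJr, div_le_one hJr]
      exact hJ i
  have hJJ := hmem J le_rfl
  have e : P J = A - ∑ i, n i • t i := by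
    simp only [hP]
    congr 1
    refine Finset.sum_congr rfl (fun i _ => ?_)
    rw [mul_div_cancel_left₀ _ hJr.ne', Int.floor_intCast]
  rwa [e] at hJJ

theorem walk : Walk V := by
  intro Y ρ τ k t v h0 hfin hk ht hv hspan
  have hτ : 0 ≤ τ := (norm_nonneg v).trans hv.1
  obtain ⟨α, hα⟩ := (Submodule.mem_span_range_iff_exists_fun ℝ).mp hspan
  set y : ℕ → V := fun j => (j : ℝ) • v - ∑ i, ⌊(j : ℝ) * α i⌋ • t i with hy
  have hyf : ∀ j, y j = ∑ i, Int.fract ((j : ℝ) * α i) • t i := by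
    intro j
    simp only [hy]
    rw [← hα, Finset.smul_sum, ← Finset.sum_sub_distrib]
    refine Finset.sum_congr rfl (fun i _ => ?_)
    rw [Int.fract, sub_smul, Int.cast_smul_eq_zsmul, smul_smul]
  have hyn : ∀ j, ‖y j‖ ≤ k * τ := by
    intro j
    rw [hyf j]
    exact norm_fract_sum (fun i => (ht i).1) _
  have hkτ : k * τ ≤ ρ := by
    have : (0 : ℝ) ≤ k * τ := by positivity
    nlinarith
  have hmem : ∀ j, y j ∈ Y := by
    intro j
    induction j with
    | zero => simpa [hy] using h0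
    | succ j ih =>
      have hA : y j + v ∈ Y := (hv.2 _ ih ((hyn j).trans hkτ)).1
      have hAn : ‖y j + v‖ ≤ (k + 1) * τ := by
        calc ‖y j + v‖ ≤ ‖y j‖ + ‖v‖ := norm_add_le _ _
          _ ≤ k * τ + τ := add_le_add (hyn j) hv.1
          _ = (k + 1) * τ := by ring
      have e : y (j + 1) = (y j + v) - ∑ i, (⌊((j + 1 : ℕ) : ℝ) * α i⌋ - ⌊(j : ℝ) * α i⌋) • t i := by
        simp only [hy, sub_smul]
        rw [Finset.sum_sub_distrib]
        push_cast
        rw [add_smul, one_smul]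
        abel
      rw [e]
      refine walk_G hτ hk ht _ hA hAn _ ?_
      rw [← e]
      have := hyn (j + 1)
      nlinarith
  obtain ⟨j, -, j', -, hne, heq⟩ := Set.infinite_univ.exists_ne_map_eq_of_mapsTo
    (f := y) (t := {p | p ∈ Y ∧ ‖p‖ ≤ ρ}) (fun j _ => ⟨hmem j, (hyn j).trans hkτ⟩) hfin
  have key : ∀ j j' : ℕ, j < j' → y j = y j' →
      ∃ M : ℕ, 0 < M ∧ M • v ∈ Submodule.span ℤ (Set.range t) := by
    intro j j' hlt heq
    refine ⟨j' - j, by omega, ?_⟩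
    have e : (j' - j) • v = ∑ i, (⌊(j' : ℝ) * α i⌋ - ⌊(j : ℝ) * α i⌋) • t i := by
      simp only [sub_smul]
      rw [Finset.sum_sub_distrib]
      simp only [hy] at heq
      rw [sub_eq_sub_iff_add_eq_add] at heq
      have h1 : (j' - j) • v = (j' : ℝ) • v - (j : ℝ) • v := by
        rw [← sub_smul, ← Nat.cast_sub hlt.le, Nat.cast_smul_eq_nsmul]
      rw [h1, sub_eq_sub_iff_add_eq_add, ← heq]
      abel
    rw [e]
    exact Submodule.sum_mem _ (fun i _ => Submodule.smul_mem _ _ (Submodule.subset_span ⟨i, rfl⟩))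
  rcases lt_or_gt_of_ne hne with h | h
  · exact key j j' h heq
  · exact key j' j h heq.symm

end

end Pool.Agent.Helper36.Del
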